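import Mathlib
import Pool.Agent.P.MP_84fce2_co.Defs

-- part Pool.Agent.P.MP_84fce2_co.Abstract
section

namespace Pool.Agent.P.MP_84fce2_co

open Finset Equiv

variable {X : Type*}

/-- `γ` preserves the colouring `c` outside at most `K` points. -/
def Near (c : X → Bool) (K : ℕ) (γ : Perm X) : Prop :=
  ∃ E : Finset X, E.card ≤ K ∧ ∀ x ∉ E, c (γ x) = c x

lemma Near.mono {c : X → Bool} {K L : ℕ} {γ : Perm X} (h : Near c K γ) (hKL : K ≤ L) :
    Near c L γ := by
  obtain ⟨E, hE, h⟩ := h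
  exact ⟨E, hE.trans hKL, h⟩

lemma Near.mul {c : X → Bool} {K L : ℕ} {γ δ : Perm X} (h : Near c K γ) (h' : Near c L δ) :
    Near c (K + L) (γ * δ) := by
  classical
  obtain ⟨E, hE, h⟩ := h
  obtain ⟨F, hF, h'⟩ := h'
  refine ⟨E.image δ.symm ∪ F, (card_union_le _ _).trans (add_le_add (card_image_le.trans hE) hF),
    fun x hx => ?_⟩
  rw [mem_union, not_or] at hx
  rw [Perm.mul_apply, h, h' x hx.2]
  intro hx'
  exact hx.1 (mem_image.2 ⟨_, hx', by simp⟩)

lemma Near.inv {c : X → Bool} {K : ℕ} {γ : Perm X} (h : Near c K γ) : Near c K γ⁻¹ := by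
  classical
  obtain ⟨E, hE, h⟩ := h
  refine ⟨E.image γ, card_image_le.trans hE, fun x hx => ?_⟩
  have := h (γ⁻¹ x) fun hx' => hx (mem_image.2 ⟨_, hx', by simp⟩)
  simpa using this.symm

/-- Two colourings differ in at most `K` points. -/
def Close (c c' : X → Bool) (K : ℕ) : Prop :=
  ∃ E : Finset X, E.card ≤ K ∧ ∀ x ∉ E, c' x = c x

lemma Near.of_close {c c' : X → Bool} {K L : ℕ} {γ : Perm X} (h : Near c K γ)
    (h' : Close c c' L) : Near c' (K + 2 * L) γ := by
  classical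
  obtain ⟨E, hE, h⟩ := h
  obtain ⟨F, hF, h'⟩ := h'
  refine ⟨E ∪ (F ∪ F.image γ.symm), ?_, fun x hx => ?_⟩
  · have h1 := card_union_le E (F ∪ F.image γ.symm)
    have h2 := card_union_le F (F.image γ.symm)
    have h3 : (F.image γ.symm).card ≤ F.card := card_image_le
    omega
  · simp only [mem_union, not_or] at hx
    rw [h' x hx.2.1, h', h x hx.1]
    intro hx'
    exact hx.2.2 (mem_image.2 ⟨_, hx', by simp⟩)

/-- If `b ↦ f b` is injective on `B`, at most `|E|` elements of `B` are sent into `E`. -/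
lemma card_filter_mem_le {Y : Type*} [DecidableEq X] (B : Finset Y) (f : Y → X)
    (hf : Set.InjOn f B) (E : Finset X) : (B.filter fun b => f b ∈ E).card ≤ E.card :=
  card_le_card_of_injOn f (fun _ hb => (mem_filter.1 hb).2)
    (hf.mono fun _ hb => (mem_filter.1 hb).1)

lemma card_bad_le {c : X → Bool} {K : ℕ} {γ : Perm X} (h : Near c K γ) {Y : Type*}
    (B : Finset Y) (f : Y → X) (hf : Set.InjOn f B) :
    (B.filter fun b => c (γ (f b)) ≠ c (f b)).card ≤ K := by
  classical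
  obtain ⟨E, hE, h⟩ := h
  refine le_trans (card_le_card fun b hb => ?_) ((card_filter_mem_le B f hf E).trans hE)
  rw [mem_filter] at hb ⊢
  exact ⟨hb.1, by_contra fun hx => hb.2 (h _ hx)⟩

lemma strong_majority {c : X → Bool} {K : ℕ} (B : Finset (Perm X))
    (hcomm : ∀ b ∈ B, ∀ b' ∈ B, Commute b b') (hnear : ∀ b ∈ B, Near c K b) (x : X)
    (hfree : Set.InjOn (fun b : Perm X => b x) B) :
    (B.filter fun b => c (b x) = true).card ≤ 2 * K ∨
      (B.filter fun b => c (b x) = false).card ≤ 2 * K := by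
  classical
  set U := B.filter fun b => c (b x) = true with hU
  set V := B.filter fun b => c (b x) = false with hV
  have hUB : U ⊆ B := filter_subset _ _
  have hVB : V ⊆ B := filter_subset _ _
  have hsub : U ×ˢ V ⊆
      (V.biUnion fun b' => (U.filter fun b => c (b' (b x)) ≠ c (b x)).image fun b => (b, b')) ∪
      (U.biUnion fun b => (V.filter fun b' => c (b (b' x)) ≠ c (b' x)).image fun b' => (b, b')) := by
    rintro ⟨b, b'⟩ hb
    rw [mem_product] at hb
    obtain ⟨hb, hb'⟩ := hb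
    have e : b' (b x) = b (b' x) := by
      have := (hcomm b (hUB hb) b' (hVB hb')).eq
      rw [← Perm.mul_apply, ← this, Perm.mul_apply]
    have h1 := (mem_filter.1 hb).2
    have h2 := (mem_filter.1 hb').2
    simp only at h1 h2
    rw [mem_union]
    by_cases h : c (b' (b x)) = c (b x)
    · right
      refine mem_biUnion.2 ⟨b, hb, mem_image.2 ⟨b', mem_filter.2 ⟨hb', ?_⟩, rfl⟩⟩
      rw [← e, h, h1, h2]; simp
    · left
      exact mem_biUnion.2 ⟨b', hb', mem_image.2 ⟨b, mem_filter.2 ⟨hb, h⟩, rfl⟩⟩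
  have h1 : (V.biUnion fun b' =>
      (U.filter fun b => c (b' (b x)) ≠ c (b x)).image fun b => (b, b')).card ≤ V.card * K :=
    card_biUnion_le_card_mul _ _ _ fun b' hb' => card_image_le.trans
      (card_bad_le (hnear b' (hVB hb')) U (fun b : Perm X => b x) (hfree.mono hUB))
  have h2 : (U.biUnion fun b =>
      (V.filter fun b' => c (b (b' x)) ≠ c (b' x)).image fun b' => (b, b')).card ≤ U.card * K :=
    card_biUnion_le_card_mul _ _ _ fun b hb => card_image_le.trans
      (card_bad_le (hnear b (hUB hb)) V (fun b : Perm X => b x) (hfree.mono hVB))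
  have h3 := (card_le_card hsub).trans (card_union_le _ _)
  rw [card_product] at h3
  by_contra hcon
  push Not at hcon
  nlinarith [hcon.1, hcon.2]

/-- Many commuting almost-symmetries acting freely: a nearby colouring is invariant. -/
lemma stability {c : X → Bool} {K : ℕ} (B : Finset (Perm X)) (Z : Set X)
    (hcomm : ∀ b ∈ B, ∀ b' ∈ B, Commute b b') (hnear : ∀ b ∈ B, Near c K b)
    (hfree : ∀ x ∉ Z, Set.InjOn (fun b : Perm X => b x) B) (hZ : ∀ b ∈ B, ∀ x ∈ Z, b x = x)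
    (hM : 5 * K < B.card) :
    ∃ c' : X → Bool, Close c c' (2 * K) ∧ ∀ b ∈ B, ∀ x, c' (b x) = c' x := by
  classical
  let c' : X → Bool := fun x => decide (2 * K < (B.filter fun b => c (b x) = true).card)
  have hmaj : ∀ x, (B.filter fun b => c (b x) ≠ c' x).card ≤ 2 * K := by
    intro x
    by_cases hx : x ∈ Z
    · have : (B.filter fun b => c (b x) ≠ c' x) = ∅ := by
        rw [filter_eq_empty_iff]
        intro b hb
        rw [hZ b hb x hx, not_not]
        cases hc : c x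
        · have : (B.filter fun b => c (b x) = true) = ∅ := by
            rw [filter_eq_empty_iff]
            intro b hb
            rw [hZ b hb x hx, hc]; simp
          simp [c', this]
        · have : (B.filter fun b => c (b x) = true) = B := by
            rw [filter_eq_self]
            intro b hb
            rw [hZ b hb x hx, hc]
          have h5 : 2 * K < B.card := by omega
          simp [c', this, h5]
      simp [this]
    · by_cases h : 2 * K < (B.filter fun b => c (b x) = true).card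
      · have hc : c' x = true := by simp [c', h]
        rcases strong_majority B hcomm hnear x (hfree x hx) with h' | h'
        · omega
        · simpa [hc] using h'
      · have hc : c' x = false := by simpa [c'] using h
        simpa [hc] using not_lt.1 h
  refine ⟨c', ?_, ?_⟩
  · choose! E hE hE' using hnear
    have hsub : ∀ x, c' x ≠ c x → B.card - 2 * K ≤ (B.filter fun b => x ∈ E b).card := by
      intro x hx
      have h1 := hmaj x
      have h2 : B ⊆ (B.filter fun b => c (b x) ≠ c' x) ∪ (B.filter fun b => x ∈ E b) := by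
        intro b hb
        rw [mem_union, mem_filter, mem_filter]
        by_cases h : x ∈ E b
        · exact Or.inr ⟨hb, h⟩
        · exact Or.inl ⟨hb, by rw [hE' b hb x h]; exact hx.symm⟩
      have h3 := (card_le_card h2).trans (card_union_le _ _)
      omega
    refine ⟨(B.biUnion E).filter fun x => c' x ≠ c x, ?_, ?_⟩
    · set F := (B.biUnion E).filter fun x => c' x ≠ c x
      have := card_mul_le_card_mul (s := F) (t := B) (fun x b => x ∈ E b) (m := B.card - 2 * K)
        (n := K) (fun x hx => hsub x (mem_filter.1 hx).2) (fun b hb => by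
          refine le_trans (card_le_card fun x hx => ?_) (hE b hb)
          exact (mem_filter.1 hx).2)
      obtain ⟨d, hd⟩ : ∃ d, B.card = d + 2 * K := ⟨B.card - 2 * K, by omega⟩
      rw [hd, Nat.add_sub_cancel] at this
      by_contra hcon
      push Not at hcon
      have : 3 * K < d := by omega
      nlinarith
    · intro x hx
      by_contra h
      have h1 := hsub x h
      have : (B.filter fun b => x ∈ E b).Nonempty := card_pos.1 (by omega)
      obtain ⟨b, hb⟩ := this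
      rw [mem_filter] at hb
      exact hx (mem_filter.2 ⟨mem_biUnion.2 ⟨b, hb.1, hb.2⟩, h⟩)
  · intro b₀ hb₀ x
    by_cases hx : x ∈ Z
    · rw [hZ b₀ hb₀ x hx]
    have h1 := hmaj x
    have h2 := hmaj (b₀ x)
    have h3 := card_bad_le (hnear b₀ hb₀) B (fun b : Perm X => b x) (hfree x hx)
    by_contra hcon
    have hsub : B ⊆ (B.filter fun b => c (b x) ≠ c' x) ∪
        (B.filter fun b => c (b (b₀ x)) ≠ c' (b₀ x)) ∪
        (B.filter fun b => c (b₀ (b x)) ≠ c (b x)) := by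
      intro b hb
      have e : b₀ (b x) = b (b₀ x) := by
        have := (hcomm b hb b₀ hb₀).eq
        rw [← Perm.mul_apply, ← this, Perm.mul_apply]
      simp only [mem_union, mem_filter, hb, true_and]
      by_contra h
      push Not at h
      apply hcon
      rw [← h.1.2, ← e, h.2, h.1.1]
    have h4 := (card_le_card hsub).trans (card_union_le _ _)
    have h5 := card_union_le (B.filter fun b => c (b x) ≠ c' x)
      (B.filter fun b => c (b (b₀ x)) ≠ c' (b₀ x))
    omega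

/-- An almost-symmetry normalising the situation is a symmetry. -/
lemma rigidity {c : X → Bool} {K : ℕ} (B : Finset (Perm X)) (Z : Set X) (γ : Perm X)
    (hinv : ∀ b ∈ B, ∀ x, c (b x) = c x)
    (hfree : ∀ x ∉ Z, Set.InjOn (fun b : Perm X => b x) B) (hZ : ∀ b ∈ B, ∀ x ∈ Z, b x = x)
    (hγ : Near c K γ) (hγZ : ∀ x ∈ Z, γ x = x)
    (hcomm : ∀ b ∈ B, ∀ b' ∈ B, Commute b (γ⁻¹ * b' * γ)) (hM : 2 * K < B.card) (x : X) :
    c (γ x) = c x := by
  classical
  by_cases hx : x ∈ Z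
  · rw [hγZ x hx]
  obtain ⟨E, hE, h⟩ := hγ
  have notZ : ∀ δ : Perm X, (∀ y ∈ Z, δ y = y) → ∀ y ∉ Z, δ y ∉ Z := by
    intro δ hδ y hy hy'
    exact hy (δ.injective (hδ _ hy') ▸ hy')
  have hfree' : ∀ y ∉ Z, Set.InjOn (fun b : Perm X => (γ⁻¹ * b * γ) y) B := by
    intro y hy b hb b' hb' e
    exact hfree (γ y) (notZ γ hγZ y hy) hb hb' (by simpa using e)
  obtain ⟨b, hb, hbE⟩ : ∃ b ∈ B, b x ∉ E := by
    by_contra hcon
    push Not at hcon
    have := card_filter_mem_le B (fun b : Perm X => b x) (hfree x hx) E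
    rw [filter_true_of_mem hcon] at this
    omega
  obtain ⟨b', hb', h1, h2⟩ : ∃ b' ∈ B, (γ⁻¹ * b' * γ) x ∉ E ∧ (γ⁻¹ * b' * γ) (b x) ∉ E := by
    by_contra hcon
    push Not at hcon
    have g1 := card_filter_mem_le B _ (hfree' x hx) E
    have g2 := card_filter_mem_le B _ (hfree' (b x) (notZ b (hZ b hb) x hx)) E
    have hsub : B ⊆ (B.filter fun b' => (γ⁻¹ * b' * γ) x ∈ E) ∪
        (B.filter fun b' => (γ⁻¹ * b' * γ) (b x) ∈ E) := by
      intro b' hb'
      rw [mem_union, mem_filter, mem_filter]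
      by_cases h : (γ⁻¹ * b' * γ) x ∈ E
      · exact Or.inl ⟨hb', h⟩
      · exact Or.inr ⟨hb', hcon b' hb' h⟩
    have := (card_le_card hsub).trans (card_union_le _ _)
    omega
  have e : (γ⁻¹ * b' * γ) (b x) = b ((γ⁻¹ * b' * γ) x) := by
    rw [← Perm.mul_apply, ← (hcomm b hb b' hb').eq, Perm.mul_apply]
  have k : ∀ y, c (γ ((γ⁻¹ * b' * γ) y)) = c (γ y) := by
    intro y
    simpa using hinv b' hb' (γ y)
  calc c (γ x) = c (γ ((γ⁻¹ * b' * γ) x)) := (k x).symm
    _ = c ((γ⁻¹ * b' * γ) x) := h _ h1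
    _ = c (b ((γ⁻¹ * b' * γ) x)) := (hinv b hb _).symm
    _ = c ((γ⁻¹ * b' * γ) (b x)) := by rw [e]
    _ = c (γ ((γ⁻¹ * b' * γ) (b x))) := (h _ h2).symm
    _ = c (γ (b x)) := k _
    _ = c (b x) := h _ hbE
    _ = c x := hinv b hb x

lemma exists_free_subset (γ : Perm X) (V : Finset X) (hV : ∀ x ∈ V, γ x ≠ x) (q : ℕ)
    (hq : 3 * q ≤ V.card) : ∃ Q ⊆ V, Q.card = q ∧ ∀ x ∈ Q, γ x ∉ Q := by
  classical
  induction q with
  | zero => exact ⟨∅, empty_subset _, rfl, by simp⟩
  | succ q ih =>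
    obtain ⟨Q, hQV, hQ, h⟩ := ih (by omega)
    have hlt : (Q ∪ Q.image γ ∪ Q.image γ.symm).card < V.card := by
      have h1 := card_union_le (Q ∪ Q.image γ) (Q.image γ.symm)
      have h2 := card_union_le Q (Q.image γ)
      have h3 : (Q.image γ).card ≤ Q.card := card_image_le
      have h4 : (Q.image γ.symm).card ≤ Q.card := card_image_le
      omega
    obtain ⟨y, hyV, hy⟩ := exists_mem_notMem_of_card_lt_card hlt
    simp only [mem_union, not_or] at hy
    refine ⟨insert y Q, insert_subset hyV hQV, by rw [card_insert_of_notMem hy.1.1, hQ], ?_⟩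
    intro x hx hx'
    rcases mem_insert.1 hx with rfl | hx
    · rcases mem_insert.1 hx' with e | e
      · exact hV _ hyV e
      · exact hy.2 (mem_image.2 ⟨_, e, by simp⟩)
    · rcases mem_insert.1 hx' with e | e
      · exact hy.1.2 (mem_image.2 ⟨x, hx, e⟩)
      · exact h x hx e

/-- Union bound: covering all recolourings of `V` needs many permutations. -/
lemma many_symmetries (c : X → Bool) (V : Finset X) (S : Set (Perm X)) (q : ℕ)
    (hq : 3 * q + 2 ≤ V.card)
    (h2 : ∀ γ ∈ S, ∀ P ⊆ V, (∀ x ∈ P, γ x = x) → P.card ≤ 2)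
    (hcov : ∀ c' : X → Bool, (∀ x ∉ V, c' x = c x) → ∃ γ ∈ S, ∀ x, c' (γ x) = c' x) :
    ∃ T : Finset (Perm X), (T : Set (Perm X)) ⊆ S ∧ 2 ^ q ≤ T.card := by
  classical
  let col : Finset X → X → Bool := fun D x => if x ∈ V then decide (x ∈ D) else c x
  choose g hgS hg using fun D : Finset X => hcov (col D) (fun x hx => by simp [col, hx])
  refine ⟨V.powerset.image g, ?_, ?_⟩
  · intro γ hγ
    obtain ⟨D, -, rfl⟩ := mem_image.1 hγ
    exact hgS D
  have key : V.powerset.card ≤ 2 ^ (V.card - q) * (V.powerset.image g).card := by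
    apply card_le_mul_card_image
    intro γ hγ
    obtain ⟨D₀, -, rfl⟩ := mem_image.1 hγ
    set γ := g D₀ with hγdef
    have hfix := h2 γ (hgS D₀) (V.filter fun x => γ x = x) (filter_subset _ _)
      (fun x hx => (mem_filter.1 hx).2)
    have hsplit := card_filter_add_card_filter_not (s := V) (fun x => γ x = x)
    obtain ⟨Q, hQV, hQ, hQγ⟩ := exists_free_subset γ (V.filter fun x => ¬ γ x = x)
      (fun x hx => (mem_filter.1 hx).2) q (by omega)
    have hQV' : Q ⊆ V := hQV.trans (filter_subset _ _)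
    rw [← hQ, ← card_sdiff_of_subset hQV', ← card_powerset]
    apply card_le_card_of_injOn (fun D => D \ Q)
    · intro D hD
      simp only [coe_filter, mem_powerset, Set.mem_ofPred_eq] at hD
      simp only [coe_powerset, Set.mem_preimage, Set.mem_powerset_iff, coe_subset]
      exact sdiff_subset_sdiff hD.1 Subset.rfl
    · intro D hD D' hD' e
      simp only [coe_filter, mem_powerset, Set.mem_ofPred_eq] at hD hD'
      have off : ∀ x ∉ Q, col D x = col D' x := by
        intro x hx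
        have : x ∈ D \ Q ↔ x ∈ D' \ Q := by simp only at e; rw [e]
        simp only [mem_sdiff, hx, not_false_eq_true, and_true] at this
        simp [col, this]
      have all : ∀ x, col D x = col D' x := by
        intro x
        by_cases hx : x ∈ Q
        · rw [← hg D x, ← hg D' x, hD.2, hD'.2]
          exact off _ (hQγ x hx)
        · exact off x hx
      ext x
      by_cases hx : x ∈ V
      · simpa [col, hx] using all x
      · exact ⟨fun h => absurd (hD.1 h) hx, fun h => absurd (hD'.1 h) hx⟩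
  rw [card_powerset] at key
  obtain ⟨d, hd⟩ : ∃ d, V.card = d + q := ⟨V.card - q, by omega⟩
  rw [hd, Nat.add_sub_cancel, pow_add] at key
  exact Nat.le_of_mul_le_mul_left key (by positivity)

end Pool.Agent.P.MP_84fce2_co
end

-- part Pool.Agent.P.MP_84fce2_co.Geometry
section

namespace Pool.Agent.P.MP_84fce2_co

open Finset Equiv ComplexConjugate

/-- `γ z = a z + b`. -/
def IsAff (γ : Perm ℂ) (a b : ℂ) : Prop := ∀ z, γ z = a * z + b

def Pos (γ : Perm ℂ) : Prop := ∃ a b : ℂ, ‖a‖ = 1 ∧ IsAff γ a b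

def Neg (γ : Perm ℂ) : Prop := ∃ a b : ℂ, ‖a‖ = 1 ∧ ∀ z, γ z = a * conj z + b

def Iso (γ : Perm ℂ) : Prop := Pos γ ∨ Neg γ

lemma ne_zero_of_norm {a : ℂ} (h : ‖a‖ = 1) : a ≠ 0 := by
  rintro rfl; simp at h

lemma IsAff.ext {γ δ : Perm ℂ} {a b : ℂ} (h : IsAff γ a b) (h' : IsAff δ a b) : γ = δ := by
  ext z; rw [h z, h' z]

lemma pos_ext {γ δ : Perm ℂ} (h : Pos γ) (h' : Pos δ) {p q : ℂ} (hpq : p ≠ q) (e1 : γ p = δ p)
    (e2 : γ q = δ q) : γ = δ := by
  obtain ⟨a, b, -, h⟩ := h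
  obtain ⟨a', b', -, h'⟩ := h'
  rw [h, h'] at e1 e2
  have : (a - a') * (p - q) = 0 := by linear_combination e1 - e2
  have ha : a = a' := sub_eq_zero.1 ((mul_eq_zero.1 this).resolve_right (sub_ne_zero.2 hpq))
  subst ha
  have hb : b = b' := by linear_combination e1
  subst hb
  exact h.ext h'

lemma neg_ext {γ δ : Perm ℂ} (h : Neg γ) (h' : Neg δ) {p q : ℂ} (hpq : p ≠ q) (e1 : γ p = δ p)
    (e2 : γ q = δ q) : γ = δ := by
  obtain ⟨a, b, -, h⟩ := h
  obtain ⟨a', b', -, h'⟩ := h'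
  rw [h, h'] at e1 e2
  have : (a - a') * (conj p - conj q) = 0 := by linear_combination e1 - e2
  have hpq' : conj p - conj q ≠ 0 := sub_ne_zero.2 fun e => hpq (star_injective e)
  have ha : a = a' := sub_eq_zero.1 ((mul_eq_zero.1 this).resolve_right hpq')
  subst ha
  have hb : b = b' := by linear_combination e1
  subst hb
  ext z; rw [h z, h' z]

lemma pos_one : Pos 1 := ⟨1, 0, by simp, fun z => by simp⟩

lemma two_fixed {γ δ : Perm ℂ} (h : Iso γ) (h' : Iso δ) (h1 : γ ≠ 1) (h1' : δ ≠ 1) {p q : ℂ}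
    (hpq : p ≠ q) (a1 : γ p = p) (a2 : γ q = q) (b1 : δ p = p) (b2 : δ q = q) : γ = δ := by
  rcases h with h | h
  · exact absurd (pos_ext h pos_one hpq a1 a2) h1
  rcases h' with h' | h'
  · exact absurd (pos_ext h' pos_one hpq b1 b2) h1'
  exact neg_ext h h' hpq (a1.trans b1.symm) (a2.trans b2.symm)

lemma card_iso_le (T : Finset (Perm ℂ)) (hT : ∀ γ ∈ T, Iso γ) (Y : Finset ℂ) {p q : ℂ}
    (hpq : p ≠ q) (hp : ∀ γ ∈ T, γ p ∈ Y) (hq : ∀ γ ∈ T, γ q ∈ Y) :
    T.card ≤ 2 * (Y.card * Y.card) := by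
  classical
  have key : ∀ U ⊆ T, Set.InjOn (fun γ : Perm ℂ => (γ p, γ q)) U → U.card ≤ Y.card * Y.card := by
    intro U hU hinj
    rw [← card_product]
    exact card_le_card_of_injOn _
      (fun γ hγ => by simpa using ⟨hp γ (hU hγ), hq γ (hU hγ)⟩) hinj
  have h1 := key (T.filter Pos) (filter_subset _ _) fun γ hγ δ hδ e =>
    pos_ext (mem_filter.1 hγ).2 (mem_filter.1 hδ).2 hpq (Prod.ext_iff.1 e).1 (Prod.ext_iff.1 e).2
  have h2 := key (T.filter fun γ => ¬ Pos γ) (filter_subset _ _) fun γ hγ δ hδ e =>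
    neg_ext ((hT γ (mem_filter.1 hγ).1).resolve_left (mem_filter.1 hγ).2)
      ((hT δ (mem_filter.1 hδ).1).resolve_left (mem_filter.1 hδ).2) hpq
      (Prod.ext_iff.1 e).1 (Prod.ext_iff.1 e).2
  have h3 := card_filter_add_card_filter_not (s := T) Pos
  omega

lemma pos_inv_mul {γ δ : Perm ℂ} (h : Pos γ) (h' : Pos δ) : Pos (γ⁻¹ * δ) := by
  obtain ⟨a, b, ha, h⟩ := h
  obtain ⟨a', b', ha', h'⟩ := h'
  have := ne_zero_of_norm ha
  refine ⟨a' / a, (b' - b) / a, by simp [ha, ha'], fun z => ?_⟩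
  rw [Perm.mul_apply, Perm.inv_eq_iff_eq, h, h']
  field_simp
  ring

lemma neg_inv_mul {γ δ : Perm ℂ} (h : Neg γ) (h' : Neg δ) : Pos (γ⁻¹ * δ) := by
  obtain ⟨a, b, ha, h⟩ := h
  obtain ⟨a', b', ha', h'⟩ := h'
  have := ne_zero_of_norm ha
  refine ⟨conj (a' / a), conj ((b' - b) / a), by simp [ha, ha'], fun z => ?_⟩
  rw [Perm.mul_apply, Perm.inv_eq_iff_eq, h, h']
  simp only [map_add, map_mul, Complex.conj_conj]
  field_simp
  ring

lemma conj_aff {γ g : Perm ℂ} (h : Iso γ) {α β : ℂ} (hg : IsAff g α β) :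
    ∃ α' β', (α' = α ∨ α' = conj α) ∧ IsAff (γ⁻¹ * g * γ) α' β' := by
  rcases h with ⟨a, t, ha, h⟩ | ⟨a, t, ha, h⟩
  · have := ne_zero_of_norm ha
    refine ⟨α, (α * t + β - t) / a, Or.inl rfl, fun z => ?_⟩
    rw [Perm.mul_apply, Perm.mul_apply, Perm.inv_eq_iff_eq, hg, h, h]
    field_simp
    ring
  · have := ne_zero_of_norm ha
    refine ⟨conj α, conj ((α * t + β - t) / a), Or.inr rfl, fun z => ?_⟩
    rw [Perm.mul_apply, Perm.mul_apply, Perm.inv_eq_iff_eq, hg, h, h]
    simp only [map_add, map_mul, Complex.conj_conj]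
    field_simp
    ring

lemma commute_tr {g g' : Perm ℂ} {v v' : ℂ} (h : IsAff g 1 v) (h' : IsAff g' 1 v') :
    Commute g g' := by
  ext z
  simp only [Perm.mul_apply, h _, h' _]
  ring

lemma commute_rot {g g' : Perm ℂ} {a b a' b' o : ℂ} (h : IsAff g a b) (h' : IsAff g' a' b')
    (e : g o = o) (e' : g' o = o) : Commute g g' := by
  ext z
  rw [h] at e
  rw [h'] at e'
  simp only [Perm.mul_apply, h _, h' _]
  linear_combination (1 - a') * e - (1 - a) * e'

lemma inv_app (g : Perm ℂ) (y : ℂ) : g⁻¹ (g y) = y := by simp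

lemma commutator_aff {g g' : Perm ℂ} {a b a' b' : ℂ} (h : IsAff g a b) (h' : IsAff g' a' b') :
    IsAff (g * g' * g⁻¹ * g'⁻¹) 1 (a * b' + b - (a' * b + b')) := by
  intro z
  obtain ⟨y, rfl⟩ := (g' * g).surjective z
  simp only [Perm.mul_apply, inv_app]
  simp only [h _, h' _]
  ring

lemma conj_tr {u τ : Perm ℂ} {a t v : ℂ} (h : IsAff u a t) (h' : IsAff τ 1 v) :
    IsAff (u * τ * u⁻¹) 1 (a * v) := by
  intro z
  obtain ⟨y, rfl⟩ := u.surjective z
  simp only [Perm.mul_apply, inv_app]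
  simp only [h _, h' _]
  ring

/-- From many almost-symmetries, many commuting ones. -/
lemma dichotomy (c : ℂ → Bool) (K M : ℕ) (hM : 1 ≤ M) (S : Set (Perm ℂ)) (hS : ∀ γ ∈ S, Iso γ)
    (hK : ∀ γ ∈ S, Near c K γ) (T : Finset (Perm ℂ)) (hT : (T : Set (Perm ℂ)) ⊆ S)
    (hcard : 2 * (M * M) < T.card) :
    (∃ B : Finset (Perm ℂ), M < B.card ∧ ∀ b ∈ B, (∃ v, IsAff b 1 v) ∧ Near c (20 * K) b) ∨
    (∃ o : ℂ, (∀ γ ∈ S, γ o = o) ∧ ∃ B : Finset (Perm ℂ), M < B.card ∧
      ∀ b ∈ B, (∃ a t, IsAff b a t) ∧ b o = o ∧ Near c (20 * K) b) := by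
  classical
  -- a large family of orientation preserving almost-symmetries
  obtain ⟨P, hP, hPc⟩ : ∃ P : Finset (Perm ℂ),
      (∀ γ ∈ P, Pos γ ∧ Near c (2 * K) γ) ∧ M * M < P.card := by
    have h3 := card_filter_add_card_filter_not (s := T) Pos
    have step : ∀ U ⊆ T, M * M < U.card → (∀ γ ∈ U, ∀ δ ∈ U, Pos (γ⁻¹ * δ)) →
        ∃ P : Finset (Perm ℂ), (∀ γ ∈ P, Pos γ ∧ Near c (2 * K) γ) ∧ M * M < P.card := by
      intro U hU hc hp
      obtain ⟨s, hs⟩ : U.Nonempty := card_pos.1 (by omega)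
      refine ⟨U.image fun δ => s⁻¹ * δ, ?_, ?_⟩
      · intro γ hγ
        obtain ⟨δ, hδ, rfl⟩ := mem_image.1 hγ
        exact ⟨hp s hs δ hδ,
          ((hK s (hT (hU hs))).inv.mul (hK δ (hT (hU hδ)))).mono (by omega)⟩
      · rwa [card_image_of_injective _ (mul_right_injective _)]
    by_cases h : M * M < (T.filter Pos).card
    · exact step _ (filter_subset _ _) h fun γ hγ δ hδ =>
        pos_inv_mul (mem_filter.1 hγ).2 (mem_filter.1 hδ).2
    · exact step (T.filter fun γ => ¬ Pos γ) (filter_subset _ _) (by omega) fun γ hγ δ hδ =>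
        neg_inv_mul ((hS γ (hT (mem_filter.1 hγ).1)).resolve_left (mem_filter.1 hγ).2)
          ((hS δ (hT (mem_filter.1 hδ).1)).resolve_left (mem_filter.1 hδ).2)
  choose! A Bt hA hAff using fun γ (hγ : γ ∈ P) => (hP γ hγ).1
  by_cases hfib : ∃ a ∈ P.image A, M < (P.filter fun γ => A γ = a).card
  · obtain ⟨a, -, ha⟩ := hfib
    left
    obtain ⟨s, hs⟩ : (P.filter fun γ => A γ = a).Nonempty := card_pos.1 (by omega)
    refine ⟨(P.filter fun γ => A γ = a).image fun δ => δ * s⁻¹, ?_, ?_⟩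
    · rwa [card_image_of_injective _ (mul_left_injective _)]
    · intro b hb
      obtain ⟨δ, hδ, rfl⟩ := mem_image.1 hb
      rw [mem_filter] at hs hδ
      refine ⟨⟨Bt δ - Bt s, fun z => ?_⟩,
        ((hP δ hδ.1).2.mul (hP s hs.1).2.inv).mono (by omega)⟩
      obtain ⟨y, rfl⟩ := s.surjective z
      rw [Perm.mul_apply, inv_app, hAff δ hδ.1, hAff s hs.1, hs.2, hδ.2]
      ring
  push Not at hfib
  have himg : M < (P.image A).card := by
    have := card_le_mul_card_image P M hfib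
    by_contra hcon
    push Not at hcon
    nlinarith
  -- representatives with distinct linear parts
  obtain ⟨U, hUP, hUinj, hUc⟩ : ∃ U ⊆ P, Set.InjOn A U ∧ M < U.card := by
    obtain ⟨U, hU, hinj, himage⟩ := exists_subset_injOn_image_eq_of_surjOn (f := A) (P : Set _)
      (P.image A) (by rw [coe_image]; exact Set.surjOn_image _ _)
    refine ⟨U, hU, hinj, ?_⟩
    rwa [← card_image_of_injOn hinj, himage]
  obtain ⟨g, hg, hg1⟩ : ∃ g ∈ U, A g ≠ 1 := by
    by_contra hcon
    push Not at hcon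
    have : U.card ≤ 1 := card_le_one.2 fun a ha b hb => hUinj ha hb ((hcon a ha).trans
      (hcon b hb).symm)
    omega
  have hgP := hUP hg
  have hne : 1 - A g ≠ 0 := sub_ne_zero.2 hg1.symm
  set o := Bt g / (1 - A g) with ho
  have hgo : g o = o := by
    rw [hAff g hgP, ho]
    field_simp
    ring
  by_cases hfix : ∃ h, Iso h ∧ Near c (2 * K) h ∧ h o ≠ o ∧ (h ∈ S ∨ h ∈ U)
  · obtain ⟨h, hiso, hnear, hho, -⟩ := hfix
    left
    obtain ⟨α', β', hα', hg'⟩ := conj_aff hiso (hAff g hgP)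
    have hα'1 : 1 - α' ≠ 0 := by
      rcases hα' with rfl | rfl
      · exact hne
      · intro e
        apply hne
        have := congrArg conj e
        simpa using this
    have ho' : (h⁻¹ * g * h) (h⁻¹ o) = h⁻¹ o := by simp [hgo]
    have hoo : o - h⁻¹ o ≠ 0 := by
      rw [sub_ne_zero]
      intro e
      apply hho
      conv_lhs => rw [e]
      simp
    have ht := commutator_aff (hAff g hgP) hg'
    set τ := g * (h⁻¹ * g * h) * g⁻¹ * (h⁻¹ * g * h)⁻¹
    set v := A g * β' + Bt g - (α' * Bt g + β') with hv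
    have hv0 : v ≠ 0 := by
      rw [hg'] at ho'
      rw [hAff g hgP] at hgo
      have : v = (1 - A g) * (1 - α') * (o - h⁻¹ o) := by
        rw [hv]
        linear_combination (1 - α') * hgo - (1 - A g) * ho'
      rw [this]
      exact mul_ne_zero (mul_ne_zero hne hα'1) hoo
    have ng := (hP g hgP).2
    have ng' : Near c (6 * K) (h⁻¹ * g * h) := ((hnear.inv.mul ng).mul hnear).mono (by omega)
    have nτ : Near c (16 * K) τ := (((ng.mul ng').mul ng.inv).mul ng'.inv).mono (by omega)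
    refine ⟨U.image fun u => u * τ * u⁻¹, ?_, ?_⟩
    · rwa [card_image_of_injOn]
      intro u hu u' hu' e
      have e1 := conj_tr (hAff u (hUP hu)) ht 0
      have e2 := conj_tr (hAff u' (hUP hu')) ht 0
      simp only at e
      rw [e, e2] at e1
      apply hUinj hu hu'
      have : (A u - A u') * v = 0 := by linear_combination -e1
      exact sub_eq_zero.1 ((mul_eq_zero.1 this).resolve_right hv0)
    · intro b hb
      obtain ⟨u, hu, rfl⟩ := mem_image.1 hb
      have nu := (hP u (hUP hu)).2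
      exact ⟨⟨_, conj_tr (hAff u (hUP hu)) ht⟩, ((nu.mul nτ).mul nu.inv).mono (by omega)⟩
  · right
    push Not at hfix
    refine ⟨o, fun γ hγ => ?_, U, hUc, fun b hb => ⟨⟨_, _, hAff b (hUP hb)⟩, ?_,
      (hP b (hUP hb)).2.mono (by omega)⟩⟩
    · by_contra h
      exact (hfix γ (hS γ hγ) ((hK γ hγ).mono (by omega)) h).1 hγ
    · by_contra h
      exact (hfix b (Or.inl (hP b (hUP hb)).1) (hP b (hUP hb)).2 h).2 hb

/-- A colouring close to `c` that is preserved by all of `S`. -/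
lemma common_invariant (c : ℂ → Bool) (K : ℕ) (hK1 : 1 ≤ K) (S : Set (Perm ℂ))
    (hS : ∀ γ ∈ S, Iso γ) (hK : ∀ γ ∈ S, Near c K γ) (T : Finset (Perm ℂ))
    (hT : (T : Set (Perm ℂ)) ⊆ S) (hcard : 2 * (162 * K * (162 * K)) < T.card) :
    ∃ c' : ℂ → Bool, Close c c' (40 * K) ∧ ∀ γ ∈ S, ∀ x, c' (γ x) = c' x := by
  rcases dichotomy c K (162 * K) (by omega) S hS hK T hT hcard with
    ⟨B, hB, h⟩ | ⟨o, ho, B, hB, h⟩
  · have hfree : ∀ x ∉ (∅ : Set ℂ), Set.InjOn (fun b : Perm ℂ => b x) B := by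
      intro x _ b hb b' hb' e
      obtain ⟨v, hv⟩ := (h b hb).1
      obtain ⟨v', hv'⟩ := (h b' hb').1
      simp only at e
      rw [hv, hv'] at e
      have : v = v' := by linear_combination e
      subst this
      exact hv.ext hv'
    obtain ⟨c', hc', hinv⟩ := stability (c := c) (K := 20 * K) B ∅
      (fun b hb b' hb' => by
        obtain ⟨v, hv⟩ := (h b hb).1
        obtain ⟨v', hv'⟩ := (h b' hb').1
        exact commute_tr hv hv') (fun b hb => (h b hb).2) hfree (by simp) (by omega)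
    refine ⟨c', by simpa [← mul_assoc] using hc', fun γ hγ => ?_⟩
    refine rigidity B ∅ γ hinv hfree (by simp) ((hK γ hγ).of_close hc') (by simp) ?_ (by omega)
    intro b hb b' hb'
    obtain ⟨v, hv⟩ := (h b hb).1
    obtain ⟨v', hv'⟩ := (h b' hb').1
    obtain ⟨α, β, hα, hαβ⟩ := conj_aff (hS γ hγ) hv'
    have : α = 1 := by rcases hα with rfl | rfl <;> simp
    subst this
    exact commute_tr hv hαβ
  · have hfree : ∀ x ∉ ({o} : Set ℂ), Set.InjOn (fun b : Perm ℂ => b x) B := by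
      intro x hx b hb b' hb' e
      obtain ⟨⟨a, t, hv⟩, h1, -⟩ := h b hb
      obtain ⟨⟨a', t', hv'⟩, h1', -⟩ := h b' hb'
      simp only at e
      rw [hv] at h1
      rw [hv'] at h1'
      rw [hv, hv'] at e
      have hxo : x - o ≠ 0 := sub_ne_zero.2 hx
      have : (a - a') * (x - o) = 0 := by linear_combination e - h1 + h1'
      have ha : a = a' := sub_eq_zero.1 ((mul_eq_zero.1 this).resolve_right hxo)
      subst ha
      have : t = t' := by linear_combination e
      subst this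
      exact hv.ext hv'
    have hZ : ∀ b ∈ B, ∀ x ∈ ({o} : Set ℂ), b x = x := by
      rintro b hb x rfl
      exact (h b hb).2.1
    obtain ⟨c', hc', hinv⟩ := stability (c := c) (K := 20 * K) B {o}
      (fun b hb b' hb' => by
        obtain ⟨⟨a, t, hv⟩, h1, -⟩ := h b hb
        obtain ⟨⟨a', t', hv'⟩, h1', -⟩ := h b' hb'
        exact commute_rot hv hv' h1 h1') (fun b hb => (h b hb).2.2) hfree hZ (by omega)
    refine ⟨c', by simpa [← mul_assoc] using hc', fun γ hγ => ?_⟩
    refine rigidity B {o} γ hinv hfree hZ ((hK γ hγ).of_close hc') ?_ ?_ (by omega)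
    · rintro x rfl
      exact ho γ hγ
    intro b hb b' hb'
    obtain ⟨⟨a, t, hv⟩, h1, -⟩ := h b hb
    obtain ⟨⟨a', t', hv'⟩, h1', -⟩ := h b' hb'
    obtain ⟨α, β, -, hαβ⟩ := conj_aff (hS γ hγ) hv'
    refine commute_rot hv hαβ h1 ?_
    rw [Perm.mul_apply, Perm.mul_apply, ho γ hγ, h1', Perm.inv_eq_iff_eq, ho γ hγ]

end Pool.Agent.P.MP_84fce2_co
end

-- part Pool.Agent.P.MP_84fce2_co.Main
section

namespace Pool.Agent.P.MP_84fce2_co

open Finset Equiv ComplexConjugate

lemma core (V : Finset ℂ) (hV : V.card = 97) (c : ℂ → Bool)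
    (h2 : ∀ γ, Iso γ → γ ≠ 1 → ∀ c' : ℂ → Bool, (∀ x ∉ V, c' x = c x) →
      (∀ x, c' (γ x) = c' x) → ∀ P ⊆ V, (∀ x ∈ P, γ x = x) → P.card ≤ 2) :
    ∃ c' : ℂ → Bool, (∀ x ∉ V, c' x = c x) ∧
      ∀ γ, Iso γ → (∀ x, c' (γ x) = c' x) → γ = 1 := by
  classical
  by_contra hcon
  push Not at hcon
  let S : Set (Perm ℂ) := {γ | Iso γ ∧ γ ≠ 1 ∧
    ∃ c' : ℂ → Bool, (∀ x ∉ V, c' x = c x) ∧ ∀ x, c' (γ x) = c' x}
  have hS2 : ∀ γ ∈ S, ∀ P ⊆ V, (∀ x ∈ P, γ x = x) → P.card ≤ 2 := by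
    rintro γ ⟨h, h1, c', hc', hinv⟩
    exact h2 γ h h1 c' hc' hinv
  have hcov : ∀ c' : ℂ → Bool, (∀ x ∉ V, c' x = c x) → ∃ γ ∈ S, ∀ x, c' (γ x) = c' x := by
    intro c' hc'
    obtain ⟨γ, h, hinv, h1⟩ := hcon c' hc'
    exact ⟨γ, ⟨h, h1, c', hc', hinv⟩, hinv⟩
  have hnear : ∀ γ ∈ S, Near c 194 γ := by
    rintro γ ⟨-, -, c', hc', hinv⟩
    have h0 : Near c' 0 γ := ⟨∅, by simp, fun x _ => hinv x⟩
    exact h0.of_close (L := 97) ⟨V, hV.le, fun x hx => (hc' x hx).symm⟩
  obtain ⟨T, hT, hTc⟩ := many_symmetries c V S 31 (by omega) hS2 hcov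
  obtain ⟨d, ⟨E, hE, hd⟩, hdinv⟩ := common_invariant c 194 (by norm_num) S (fun γ hγ => hγ.1)
    hnear T hT (lt_of_lt_of_le (by norm_num) hTc)
  obtain ⟨p, hp, q, hq, hpq⟩ := one_lt_card.1 (show 1 < V.card by omega)
  let c₁ : ℂ → Bool := fun x => if x = p ∨ x = q then !d x else c x
  have hV' : (V \ {p, q}).card = 95 := by
    rw [card_sdiff_of_subset (by simp [insert_subset_iff, hp, hq]), card_pair hpq, hV]
  obtain ⟨T', hT', hT'c⟩ := many_symmetries c₁ (V \ {p, q})
    {γ | γ ∈ S ∧ γ p ∈ E ∪ V ∧ γ q ∈ E ∪ V} 31 (by omega)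
    (fun γ hγ P hP => hS2 γ hγ.1 P (hP.trans sdiff_subset)) (by
      intro c' hc'
      have hc'' : ∀ x ∉ V, c' x = c x := by
        intro x hx
        rw [hc' x (fun h => hx (mem_sdiff.1 h).1)]
        have : ¬ (x = p ∨ x = q) := by
          rintro (rfl | rfl)
          · exact hx hp
          · exact hx hq
        simp [c₁, this]
      obtain ⟨γ, hγ, hinv⟩ := hcov c' hc''
      have key : ∀ w, w = p ∨ w = q → γ w ∈ E ∪ V := by
        intro w hw
        by_contra h
        rw [mem_union, not_or] at h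
        have e1 : c' w = !d w := by
          rw [hc' w (by rcases hw with rfl | rfl <;> simp)]
          simp [c₁, hw]
        have e2 : c' (γ w) = d (γ w) := by rw [hc'' _ h.2, hd _ h.1]
        rw [hinv, hdinv γ hγ, e1] at e2
        simp at e2
      exact ⟨γ, ⟨hγ, key p (Or.inl rfl), key q (Or.inr rfl)⟩, hinv⟩)
  have h1 := card_iso_le T' (fun γ hγ => (hT' hγ).1.1) (E ∪ V) hpq
    (fun γ hγ => (hT' hγ).2.1) (fun γ hγ => (hT' hγ).2.2)
  have h3 : (E ∪ V).card ≤ 7857 := (card_union_le _ _).trans (by omega)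
  have h4 : (E ∪ V).card * (E ∪ V).card ≤ 7857 * 7857 := Nat.mul_le_mul h3 h3
  norm_num at hT'c
  omega

lemma general_position (n : ℕ) (F : Finset ℂ) (hF : n + n * n * n ≤ F.card)
    (h : ∀ γ, Iso γ → γ ≠ 1 → ∀ P ⊆ F, (∀ x ∈ P, γ x = x) → P.card < n) (j : ℕ) (hj : j ≤ n) :
    ∃ V ⊆ F, V.card = j ∧
      ∀ γ, Iso γ → γ ≠ 1 → ∀ P ⊆ V, (∀ x ∈ P, γ x = x) → P.card ≤ 2 := by
  classical
  induction j with
  | zero =>
    refine ⟨∅, empty_subset _, rfl, fun γ _ _ P hP _ => ?_⟩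
    simp [subset_empty.1 hP]
  | succ j ih =>
    obtain ⟨V, hVF, hV, hgen⟩ := ih (by omega)
    let L : ℂ × ℂ → Finset ℂ := fun pq => F.filter fun w =>
      pq.1 ≠ pq.2 ∧ ∃ γ, Iso γ ∧ γ ≠ 1 ∧ γ pq.1 = pq.1 ∧ γ pq.2 = pq.2 ∧ γ w = w
    have hL : ∀ pq, (L pq).card ≤ n := by
      intro pq
      rcases (L pq).eq_empty_or_nonempty with e | ⟨w, hw⟩
      · simp [e]
      · obtain ⟨hne, γ, h1, h2, h3, h4, -⟩ := (mem_filter.1 hw).2
        refine (h γ h1 h2 _ (filter_subset _ _) fun x hx => ?_).le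
        obtain ⟨-, δ, k1, k2, k3, k4, k5⟩ := (mem_filter.1 hx).2
        rw [two_fixed h1 k1 h2 k2 hne h3 h4 k3 k4, k5]
    have hbad : (V ∪ (V ×ˢ V).biUnion L).card < F.card := by
      have h1 := card_union_le V ((V ×ˢ V).biUnion L)
      have h2 := card_biUnion_le_card_mul (V ×ˢ V) L n fun pq _ => hL pq
      rw [card_product, hV] at h2
      have h3 : j * j * n ≤ n * n * n :=
        Nat.mul_le_mul_right _ (Nat.mul_le_mul (by omega) (by omega))
      omega
    obtain ⟨y, hyF, hy⟩ := exists_mem_notMem_of_card_lt_card hbad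
    rw [mem_union, not_or] at hy
    refine ⟨insert y V, insert_subset hyF hVF, by rw [card_insert_of_notMem hy.1, hV], ?_⟩
    intro γ h1 h2 P hP hfix
    by_cases hyP : y ∈ P
    · by_contra hc
      have hc' : 1 < (P.erase y).card := by rw [card_erase_of_mem hyP]; omega
      obtain ⟨p, hp, q, hq, hpq⟩ := one_lt_card.1 hc'
      rw [mem_erase] at hp hq
      apply hy.2
      refine mem_biUnion.2 ⟨(p, q), mem_product.2 ⟨(mem_insert.1 (hP hp.2)).resolve_left hp.1,
        (mem_insert.1 (hP hq.2)).resolve_left hq.1⟩, mem_filter.2 ⟨hyF, hpq, γ, h1, h2,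
          hfix p hp.2, hfix q hq.2, hfix y hyP⟩⟩
    · exact hgen γ h1 h2 P ((subset_insert_iff_of_notMem hyP).1 hP) hfix

lemma complex_main (W : Set ℂ) (hW : ((912770 : ℕ) : ℕ∞) ≤ W.encard)
    (hstab : ∀ γ, Iso γ → (∀ w ∈ W, γ w = w) → γ = 1) (c : ℂ → Bool) :
    ∃ c' : ℂ → Bool, (∀ x ∉ W, c' x = c x) ∧
      ∀ γ, Iso γ → (∀ x, c' (γ x) = c' x) → γ = 1 := by
  classical
  obtain ⟨F₀, hF₀W, hF₀⟩ := Set.exists_subset_encard_eq hW
  have hfin : F₀.Finite := Set.finite_of_encard_eq_coe hF₀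
  set F := hfin.toFinset with hFdef
  have hFW : ∀ x ∈ F, x ∈ W := fun x hx => hF₀W (hfin.mem_toFinset.1 hx)
  have hF : F.card = 912770 := by
    have := hfin.encard_eq_coe_toFinset_card
    rw [hF₀] at this
    exact_mod_cast this.symm
  by_cases h : ∀ γ, Iso γ → γ ≠ 1 → ∀ P ⊆ F, (∀ x ∈ P, γ x = x) → P.card < 97
  · obtain ⟨V, hVF, hV, hgen⟩ := general_position 97 F (by omega) h 97 le_rfl
    obtain ⟨c', hc', hd⟩ := core V hV c fun γ h1 h2 _ _ _ => hgen γ h1 h2
    exact ⟨c', fun x hx => hc' x fun hxV => hx (hFW x (hVF hxV)), hd⟩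
  · push Not at h
    obtain ⟨r, hr, hr1, P, hPF, hPfix, hP⟩ := h
    obtain ⟨V, hVP, hV⟩ := exists_subset_card_eq hP
    obtain ⟨w, hwW, hw⟩ : ∃ w ∈ W, r w ≠ w := by
      by_contra hcon
      push Not at hcon
      exact hr1 (hstab r hr hcon)
    let c₁ : ℂ → Bool := fun x => if x = w then !c (r w) else c x
    have hwV : w ∉ V := fun h => hw (hPfix w (hVP h))
    have hrwV : r w ∉ V := fun h => hw (r.injective (hPfix _ (hVP h)))
    obtain ⟨c', hc', hd⟩ := core V hV c₁ (by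
      intro γ h1 h2 c' hc' hinv Q hQ hfix
      by_contra hc
      obtain ⟨p, hp, q, hq, hpq⟩ := one_lt_card.1 (show 1 < Q.card by omega)
      have e := two_fixed h1 hr h2 hr1 hpq (hfix p hp) (hfix q hq) (hPfix p (hVP (hQ hp)))
        (hPfix q (hVP (hQ hq)))
      have := hinv w
      rw [e, hc' _ hrwV, hc' _ hwV] at this
      simp [c₁, hw] at this)
    refine ⟨c', fun x hx => ?_, hd⟩
    rw [hc' x fun hxV => hx (hFW x (hPF (hVP hxV)))]
    have : x ≠ w := fun e => hx (e ▸ hwW)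
    simp [c₁, this]

lemma iso_of_isometry (γ : ℂ ≃ᵢ ℂ) : Iso γ.toEquiv := by
  obtain ⟨a, ha | ha⟩ := linear_isometry_complex γ.toRealLinearIsometryEquiv
  · refine Or.inl ⟨a, γ 0, by simp, fun z => ?_⟩
    have := congrArg (fun f : ℂ ≃ₗᵢ[ℝ] ℂ => f z) ha
    simp only [IsometryEquiv.toRealLinearIsometryEquiv_apply, rotation_apply] at this
    change γ z = _
    linear_combination this
  · refine Or.inr ⟨a, γ 0, by simp, fun z => ?_⟩
    have := congrArg (fun f : ℂ ≃ₗᵢ[ℝ] ℂ => f z) ha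
    simp only [IsometryEquiv.toRealLinearIsometryEquiv_apply, LinearIsometryEquiv.trans_apply,
      Complex.conjLIE_apply, rotation_apply] at this
    change γ z = _
    linear_combination this

lemma isometry_of_iso {γ : Perm ℂ} (h : Iso γ) : Isometry γ := by
  refine Isometry.of_dist_eq fun x y => ?_
  rcases h with ⟨a, b, ha, h⟩ | ⟨a, b, ha, h⟩
  · rw [h, h, dist_add_right, dist_eq_norm, dist_eq_norm, ← mul_sub, norm_mul, ha, one_mul]
  · rw [h, h, dist_add_right, dist_eq_norm, dist_eq_norm, ← mul_sub, norm_mul, ha, one_mul,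
      ← map_sub, Complex.norm_conj]

lemma plane_main (W : Set (EuclideanSpace ℝ (Fin 2))) (hW : ((912770 : ℕ) : ℕ∞) ≤ W.encard)
    (hstab : ∀ γ : EuclideanSpace ℝ (Fin 2) ≃ᵢ EuclideanSpace ℝ (Fin 2),
      (∀ w ∈ W, γ w = w) → γ = 1) (c : EuclideanSpace ℝ (Fin 2) → Fin 2) :
    ∃ c' : EuclideanSpace ℝ (Fin 2) → Fin 2, (∀ x ∉ W, c' x = c x) ∧ Distinguishing c' := by
  let φ : ℂ ≃ᵢ EuclideanSpace ℝ (Fin 2) := Complex.orthonormalBasisOneI.repr.toIsometryEquiv
  obtain ⟨c', hc', hd⟩ := complex_main (φ ⁻¹' W)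
    (by rwa [Set.encard_preimage_of_bijective φ.bijective]) (by
      intro γ hγ hfix
      have := hstab (φ.symm.trans ((IsometryEquiv.mk γ (isometry_of_iso hγ)).trans φ)) (by
        intro w hw
        change φ (γ (φ.symm w)) = w
        rw [hfix _ (by simpa using hw)]
        simp)
      ext z
      have h := congrArg (fun f : EuclideanSpace ℝ (Fin 2) ≃ᵢ EuclideanSpace ℝ (Fin 2) =>
        f (φ z)) this
      change φ (γ (φ.symm (φ z))) = φ z at h
      simpa using h) (fun z => finTwoEquiv (c (φ z)))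
  refine ⟨fun x => finTwoEquiv.symm (c' (φ.symm x)), fun x hx => ?_, fun γ hγ => ?_⟩
  · simp only
    rw [hc' _ (by simpa using hx)]
    simp
  · have := hd (φ.trans (γ.trans φ.symm)).toEquiv (iso_of_isometry _) (by
      intro z
      have h := congrFun hγ (φ z)
      simpa using h)
    ext x : 1
    have h := congrArg (fun f : Perm ℂ => φ (f (φ.symm x))) this
    simpa using h

theorem main : ∃ k : ℕ,
    IsLeast {k : ℕ | ∃ c : EuclideanSpace ℝ (Fin 2) → Fin k, Distinguishing c} k ∧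
    ∃ n : ℕ, ∀ W : Set (EuclideanSpace ℝ (Fin 2)), (n : ℕ∞) ≤ W.encard →
      (∀ γ : EuclideanSpace ℝ (Fin 2) ≃ᵢ EuclideanSpace ℝ (Fin 2), (∀ w ∈ W, γ w = w) → γ = 1) →
      ∀ c₀ : (Wᶜ : Set (EuclideanSpace ℝ (Fin 2))) → Fin k,
        ∃ c : EuclideanSpace ℝ (Fin 2) → Fin k,
          (∀ x : (Wᶜ : Set (EuclideanSpace ℝ (Fin 2))), c x = c₀ x) ∧ Distinguishing c := by
  classical
  refine ⟨2, ⟨?_, ?_⟩, 912770, fun W hW hstab c₀ => ?_⟩
  · obtain ⟨c, -, hc⟩ := plane_main Set.univ (by simp [Set.encard_univ])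
      (fun γ h => IsometryEquiv.ext fun x => h x trivial) (fun _ => 0)
    exact ⟨c, hc⟩
  · rintro k ⟨c, hc⟩
    by_contra hk
    have hk' : k ≤ 1 := by omega
    have : Subsingleton (Fin k) := Fin.subsingleton_iff_le_one.2 hk'
    have := hc (IsometryEquiv.addRight (EuclideanSpace.single 0 1)) (Subsingleton.elim _ _)
    have h := congrArg (fun f : EuclideanSpace ℝ (Fin 2) ≃ᵢ EuclideanSpace ℝ (Fin 2) =>
      f 0 0) this
    simp at h
  · obtain ⟨c, hc, hd⟩ := plane_main W hW hstab fun x => if h : x ∈ W then 0 else c₀ ⟨x, h⟩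
    refine ⟨c, fun x => ?_, hd⟩
    have hx : (x : EuclideanSpace ℝ (Fin 2)) ∉ W := x.2
    rw [hc x hx, dif_neg hx]

end Pool.Agent.P.MP_84fce2_co
end
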